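import Pool.Agent.H252.MD.Iface

/-!
# The inductive choice of the constant matrices
-/

set_option autoImplicit false

namespace Pool.Agent.H263.MDIND

open Pool.Agent.H252.MD Matrix

noncomputable section

variable {X : Type} [TopologicalSpace X] [MulAction Zm X] {n : ℕ}

/-- entries of the constant matrices, extended by zero -/
def cx (c : (L : ℕ) → Matrix (Fin n × Fin L) (Fin n × Fin L) ℂ) (L : ℕ) (k l : Fin n)
    (a b : ℕ) : ℂ := if h : a < L ∧ b < L then c L (k, ⟨a, h.1⟩) (l, ⟨b, h.2⟩) else 0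

/-- the contribution of the block `[s, s + L)` -/
def tm (φ : C(X, ℝ)) (c : (L : ℕ) → Matrix (Fin n × Fin L) (Fin n × Fin L) ℂ) (x : X)
    (k l : Fin n) (a b : ℕ) (L s : ℕ) : ℂ :=
  if s ≤ a ∧ s ≤ b then (psi φ L (zt (s : ℤ) • x) : ℂ) * cx c L k l (a - s) (b - s) else 0

theorem vW_eq (φ : C(X, ℝ)) (c : (L : ℕ) → Matrix (Fin n × Fin L) (Fin n × Fin L) ℂ) (x : X)
    (Λ : ℕ) (p q : Fin n × Fin Λ) :
    vW φ c x Λ p q = ∑ L ∈ Finset.Icc 1 Λ, ∑ s ∈ Finset.range (Λ + 1 - L),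
      tm φ c x p.1 q.1 p.2 q.2 L s := by
  unfold vW
  refine Finset.sum_congr rfl fun L _ => Finset.sum_congr rfl fun s _ => ?_
  unfold tm cx
  by_cases h : (s ≤ (p.2 : ℕ) ∧ (p.2 : ℕ) < s + L) ∧ (s ≤ (q.2 : ℕ) ∧ (q.2 : ℕ) < s + L)
  · rw [dif_pos h, if_pos ⟨h.1.1, h.2.1⟩, dif_pos (by omega)]
  · rw [dif_neg h]
    by_cases h' : s ≤ (p.2 : ℕ) ∧ s ≤ (q.2 : ℕ)
    · rw [if_pos h', dif_neg (by omega), mul_zero]
    · rw [if_neg h']

theorem tm_congr (φ : C(X, ℝ)) {c c' : (L : ℕ) → Matrix (Fin n × Fin L) (Fin n × Fin L) ℂ}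
    (x : X) (k l : Fin n) (a b L s : ℕ) (h : c L = c' L) :
    tm φ c x k l a b L s = tm φ c' x k l a b L s := by
  unfold tm cx
  rw [h]

theorem vW_congr (φ : C(X, ℝ)) {c c' : (L : ℕ) → Matrix (Fin n × Fin L) (Fin n × Fin L) ℂ}
    (x : X) (Λ : ℕ) (h : ∀ L, 1 ≤ L → L ≤ Λ → c L = c' L) : vW φ c x Λ = vW φ c' x Λ := by
  ext p q
  rw [vW_eq, vW_eq]
  refine Finset.sum_congr rfl fun L hL => Finset.sum_congr rfl fun s _ => ?_
  rw [Finset.mem_Icc] at hL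
  exact tm_congr φ x _ _ _ _ _ _ (h L hL.1 hL.2)

/-- the part of the shorter blocks -/
def zW (φ : C(X, ℝ)) (c : (L : ℕ) → Matrix (Fin n × Fin L) (Fin n × Fin L) ℂ) (x : X)
    (m : ℕ) : Matrix (Fin n × Fin (m + 1)) (Fin n × Fin (m + 1)) ℂ :=
  fun p q => ∑ L ∈ Finset.Icc 1 m, ∑ s ∈ Finset.range (m + 1 + 1 - L),
      tm φ c x p.1 q.1 p.2 q.2 L s

theorem vW_top (φ : C(X, ℝ)) (c : (L : ℕ) → Matrix (Fin n × Fin L) (Fin n × Fin L) ℂ) (x : X)
    (m : ℕ) : vW φ c x (m + 1) = (psi φ (m + 1) x : ℂ) • c (m + 1) + zW φ c x m := by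
  ext p q
  rw [vW_eq, Finset.sum_Icc_succ_top (by omega), Matrix.add_apply, Matrix.smul_apply, zW,
    add_comm]
  congr 1
  have h1 : m + 1 + 1 - (m + 1) = 1 := by omega
  rw [h1, Finset.sum_range_one]
  unfold tm cx
  have hz : zt ((0 : ℕ) : ℤ) = 1 := by simp [zt]
  rw [if_pos ⟨Nat.zero_le _, Nat.zero_le _⟩, hz, one_smul, dif_pos ⟨by omega, by omega⟩]
  rfl

theorem psi_nonneg (φ : C(X, ℝ)) (hφ : ∀ x, 0 ≤ φ x ∧ φ x ≤ 1) (L : ℕ) (x : X) :
    0 ≤ psi φ L x := by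
  unfold psi
  refine mul_nonneg (mul_nonneg (hφ _).1 (Finset.prod_nonneg fun i _ => ?_)) (hφ _).1
  linarith [(hφ (zt (i : ℤ) • x)).2]

theorem psi_le_one (φ : C(X, ℝ)) (hφ : ∀ x, 0 ≤ φ x ∧ φ x ≤ 1) (L : ℕ) (x : X) :
    psi φ L x ≤ 1 := by
  unfold psi
  have h1 : ∏ i ∈ Finset.Ico 1 L, (1 - φ (zt (i : ℤ) • x)) ≤ 1 :=
    Finset.prod_le_one (fun i _ => by linarith [(hφ (zt (i : ℤ) • x)).2])
      (fun i _ => by linarith [(hφ (zt (i : ℤ) • x)).1])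
  have h0 : 0 ≤ ∏ i ∈ Finset.Ico 1 L, (1 - φ (zt (i : ℤ) • x)) :=
    Finset.prod_nonneg (fun i _ => by linarith [(hφ (zt (i : ℤ) • x)).2])
  exact mul_le_one₀ (mul_le_one₀ (hφ _).2 h0 h1) (hφ _).1 (hφ _).2

theorem psi_zero (φ : C(X, ℝ)) (L i : ℕ) (x : X) (hi : 1 ≤ i) (hiL : i < L)
    (h : φ (zt (i : ℤ) • x) = 1) : psi φ L x = 0 := by
  unfold psi
  rw [Finset.prod_eq_zero (Finset.mem_Ico.2 ⟨hi, hiL⟩) (by rw [h, sub_self]), mul_zero, zero_mul]

omit [TopologicalSpace X] in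
theorem zt_add (i j : ℤ) (x : X) : zt (i + j) • x = zt i • zt j • x := by
  rw [smul_smul]
  rfl

theorem tm_zero (φ : C(X, ℝ)) (c : (L : ℕ) → Matrix (Fin n × Fin L) (Fin n × Fin L) ℂ) (x : X)
    (k l : Fin n) (a b L s i : ℕ) (h : φ (zt (i : ℤ) • x) = 1) (h1 : s < i) (h2 : i < s + L) :
    tm φ c x k l a b L s = 0 := by
  unfold tm
  rw [psi_zero φ L (i - s) _ (by omega) (by omega), Complex.ofReal_zero, zero_mul, ite_self]
  rw [← zt_add]
  have : (((i - s : ℕ) : ℤ) + (s : ℤ)) = (i : ℤ) := by omega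
  rw [this, h]

theorem tm_out (φ : C(X, ℝ)) (c : (L : ℕ) → Matrix (Fin n × Fin L) (Fin n × Fin L) ℂ) (x : X)
    (k l : Fin n) (a b L s : ℕ) (h : a < s ∨ b < s ∨ s + L ≤ a ∨ s + L ≤ b) :
    tm φ c x k l a b L s = 0 := by
  unfold tm cx
  by_cases h' : s ≤ a ∧ s ≤ b
  · rw [if_pos h', dif_neg (by omega), mul_zero]
  · rw [if_neg h']

theorem vW_11 (φ : C(X, ℝ)) (c : (L : ℕ) → Matrix (Fin n × Fin L) (Fin n × Fin L) ℂ) (x : X)
    (i j : ℕ) (h : φ (zt (i : ℤ) • x) = 1) (k l : Fin n) (s t : Fin i) :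
    vW φ c x (i + j) (k, Fin.castAdd j s) (l, Fin.castAdd j t) = vW φ c x i (k, s) (l, t) := by
  rw [vW_eq, vW_eq]
  simp only [Fin.val_castAdd]
  have hs := s.2
  have ht := t.2
  have key : ∀ L s', i < s' + L → tm φ c x k l s t L s' = 0 := by
    intro L s' hL
    by_cases h1 : s' < i
    · exact tm_zero φ c x k l s t L s' i h h1 hL
    · exact tm_out φ c x k l s t L s' (Or.inl (by omega))
  symm
  rw [← Finset.sum_subset (Finset.Icc_subset_Icc_right (show i ≤ i + j by omega))]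
  · refine Finset.sum_congr rfl fun L hL => ?_
    refine Finset.sum_subset (fun a ha => ?_) (fun a _ ha => ?_)
    · rw [Finset.mem_range] at ha ⊢; omega
    · rw [Finset.mem_Icc] at hL
      rw [Finset.mem_range] at ha
      exact key L a (by omega)
  · intro L hL hL'
    rw [Finset.mem_Icc] at hL hL'
    exact Finset.sum_eq_zero fun a _ => key L a (by omega)

theorem vW_22 (φ : C(X, ℝ)) (c : (L : ℕ) → Matrix (Fin n × Fin L) (Fin n × Fin L) ℂ) (x : X)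
    (i j : ℕ) (h : φ (zt (i : ℤ) • x) = 1) (k l : Fin n) (s t : Fin j) :
    vW φ c x (i + j) (k, Fin.natAdd i s) (l, Fin.natAdd i t) =
      vW φ c (zt (i : ℤ) • x) j (k, s) (l, t) := by
  rw [vW_eq, vW_eq]
  simp only [Fin.val_natAdd]
  have key : ∀ L s', 1 ≤ L → s' < i → tm φ c x k l (i + s) (i + t) L s' = 0 := by
    intro L s' hL hs'
    by_cases h1 : i < s' + L
    · exact tm_zero φ c x k l _ _ L s' i h hs' h1
    · exact tm_out φ c x k l _ _ L s' (Or.inr (Or.inr (Or.inl (by omega))))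
  symm
  rw [← Finset.sum_subset (Finset.Icc_subset_Icc_right (show j ≤ i + j by omega))]
  · refine Finset.sum_congr rfl fun L hL => ?_
    rw [Finset.mem_Icc] at hL
    have h1 : i + j + 1 - L = i + (j + 1 - L) := by omega
    have h0 : ∑ a ∈ Finset.range i, tm φ c x k l (i + s) (i + t) L a = 0 :=
      Finset.sum_eq_zero fun a ha => key L a hL.1 (Finset.mem_range.1 ha)
    rw [h1, Finset.sum_range_add, h0, zero_add]
    refine Finset.sum_congr rfl fun a _ => ?_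
    unfold tm
    have h2 : zt (((i + a : ℕ) : ℤ)) • x = zt (a : ℤ) • zt (i : ℤ) • x := by
      rw [← zt_add]; congr 2; push_cast; ring
    have h3 : i + (s : ℕ) - (i + a) = s - a := by omega
    have h4 : i + (t : ℕ) - (i + a) = t - a := by omega
    have h5 : (i + a ≤ i + (s : ℕ) ∧ i + a ≤ i + (t : ℕ)) ↔ (a ≤ (s : ℕ) ∧ a ≤ (t : ℕ)) := by
      omega
    simp only [h2, h3, h4, h5]
  · intro L hL hL'
    rw [Finset.mem_Icc] at hL hL'
    refine Finset.sum_eq_zero fun a ha => ?_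
    rw [Finset.mem_range] at ha
    exact key L a hL.1 (by omega)

theorem vW_12 (φ : C(X, ℝ)) (c : (L : ℕ) → Matrix (Fin n × Fin L) (Fin n × Fin L) ℂ) (x : X)
    (i j : ℕ) (h : φ (zt (i : ℤ) • x) = 1) (k l : Fin n) (s : Fin i) (t : Fin j) :
    vW φ c x (i + j) (k, Fin.castAdd j s) (l, Fin.natAdd i t) = 0 := by
  rw [vW_eq]
  simp only [Fin.val_castAdd, Fin.val_natAdd]
  refine Finset.sum_eq_zero fun L _ => Finset.sum_eq_zero fun a _ => ?_
  have hs := s.2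
  by_cases h1 : a < i
  · by_cases h2 : i < a + L
    · exact tm_zero φ c x k l _ _ L a i h h1 h2
    · exact tm_out φ c x k l _ _ L a (by omega)
  · exact tm_out φ c x k l _ _ L a (by omega)

theorem vW_21 (φ : C(X, ℝ)) (c : (L : ℕ) → Matrix (Fin n × Fin L) (Fin n × Fin L) ℂ) (x : X)
    (i j : ℕ) (h : φ (zt (i : ℤ) • x) = 1) (k l : Fin n) (s : Fin i) (t : Fin j) :
    vW φ c x (i + j) (k, Fin.natAdd i t) (l, Fin.castAdd j s) = 0 := by
  rw [vW_eq]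
  simp only [Fin.val_castAdd, Fin.val_natAdd]
  refine Finset.sum_eq_zero fun L _ => Finset.sum_eq_zero fun a _ => ?_
  have hs := s.2
  by_cases h1 : a < i
  · by_cases h2 : i < a + L
    · exact tm_zero φ c x k l _ _ L a i h h1 h2
    · exact tm_out φ c x k l _ _ L a (by omega)
  · exact tm_out φ c x k l _ _ L a (by omega)

theorem mulVec_block (i j : ℕ) (M : Matrix (Fin n × Fin (i + j)) (Fin n × Fin (i + j)) ℂ)
    (M1 : Matrix (Fin n × Fin i) (Fin n × Fin i) ℂ) (M2 : Matrix (Fin n × Fin j) (Fin n × Fin j) ℂ)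
    (h11 : ∀ k l (s t : Fin i), M (k, Fin.castAdd j s) (l, Fin.castAdd j t) = M1 (k, s) (l, t))
    (h22 : ∀ k l (s t : Fin j), M (k, Fin.natAdd i s) (l, Fin.natAdd i t) = M2 (k, s) (l, t))
    (h12 : ∀ k l (s : Fin i) (t : Fin j), M (k, Fin.castAdd j s) (l, Fin.natAdd i t) = 0)
    (h21 : ∀ k l (s : Fin i) (t : Fin j), M (k, Fin.natAdd i t) (l, Fin.castAdd j s) = 0)
    (ξ : Fin n × Fin (i + j) → ℂ) :
    ((fun p : Fin n × Fin i => (M *ᵥ ξ) (p.1, Fin.castAdd j p.2)) =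
      M1 *ᵥ (fun p => ξ (p.1, Fin.castAdd j p.2))) ∧
    ((fun p : Fin n × Fin j => (M *ᵥ ξ) (p.1, Fin.natAdd i p.2)) =
      M2 *ᵥ (fun p => ξ (p.1, Fin.natAdd i p.2))) := by
  constructor
  · funext p
    simp only [Matrix.mulVec, dotProduct, Fintype.sum_prod_type, Fin.sum_univ_add, h11, h12,
      zero_mul, Finset.sum_const_zero, add_zero]
  · funext p
    simp only [Matrix.mulVec, dotProduct, Fintype.sum_prod_type, Fin.sum_univ_add, h22, h21,
      zero_mul, Finset.sum_const_zero, zero_add]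

theorem split_case (φ : C(X, ℝ)) (A B : (Λ : ℕ) → X → Matrix (Fin n × Fin Λ) (Fin n × Fin Λ) ℂ)
    (hA : Dec φ A) (hB : Dec φ B) (c : (L : ℕ) → Matrix (Fin n × Fin L) (Fin n × Fin L) ℂ)
    (i j : ℕ) (x : X) (hi : 0 < i) (hj : 0 < j) (h0 : φ x = 1) (h1 : φ (zt (i : ℤ) • x) = 1)
    (h2 : φ (zt ((i + j : ℕ) : ℤ) • x) = 1)
    (Hi : ∀ ξ : Fin n × Fin i → ℂ, B i x *ᵥ (vW φ c x i *ᵥ (A i x *ᵥ ξ)) = 0 → A i x *ᵥ ξ = 0)
    (Hj : ∀ ξ : Fin n × Fin j → ℂ, B j (zt (i : ℤ) • x) *ᵥ (vW φ c (zt (i : ℤ) • x) j *ᵥ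
      (A j (zt (i : ℤ) • x) *ᵥ ξ)) = 0 → A j (zt (i : ℤ) • x) *ᵥ ξ = 0)
    (ξ : Fin n × Fin (i + j) → ℂ)
    (H : B (i + j) x *ᵥ (vW φ c x (i + j) *ᵥ (A (i + j) x *ᵥ ξ)) = 0) :
    A (i + j) x *ᵥ ξ = 0 := by
  obtain ⟨a11, a22, a00⟩ := hA i j x hi hj h0 h1 h2
  obtain ⟨b11, b22, b00⟩ := hB i j x hi hj h0 h1 h2
  have bA := mulVec_block i j (A (i + j) x) (A i x) (A j (zt (i : ℤ) • x)) a11 a22
    (fun k l s t => (a00 k l s t).1) (fun k l s t => (a00 k l s t).2)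
  have bB := mulVec_block i j (B (i + j) x) (B i x) (B j (zt (i : ℤ) • x)) b11 b22
    (fun k l s t => (b00 k l s t).1) (fun k l s t => (b00 k l s t).2)
  have bV := mulVec_block i j (vW φ c x (i + j)) (vW φ c x i) (vW φ c (zt (i : ℤ) • x) j)
    (vW_11 φ c x i j h1) (vW_22 φ c x i j h1) (vW_12 φ c x i j h1) (vW_21 φ c x i j h1)
  have e1 := (bB (vW φ c x (i + j) *ᵥ (A (i + j) x *ᵥ ξ))).1
  have e2 := (bB (vW φ c x (i + j) *ᵥ (A (i + j) x *ᵥ ξ))).2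
  rw [H, (bV _).1, (bA _).1] at e1
  rw [H, (bV _).2, (bA _).2] at e2
  have r1 := Hi _ e1.symm
  have r2 := Hj _ e2.symm
  rw [← (bA _).1] at r1
  rw [← (bA _).2] at r2
  funext p
  obtain ⟨k, s⟩ := p
  refine Fin.addCases (fun s => ?_) (fun s => ?_) s
  · exact congrFun r1 (k, s)
  · exact congrFun r2 (k, s)

/-! ### Lipschitz functions of the values of `φ` -/

/-- `f` is bounded, and a Lipschitz function of the values `φ (zt i • x)`, `i ≤ Λ` -/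
def LB (φ : C(X, ℝ)) (Λ : ℕ) (f : X → ℂ) : Prop :=
  ∃ K : ℝ, 0 ≤ K ∧ (∀ x, ‖f x‖ ≤ K) ∧ ∀ x y ρ, 0 ≤ ρ →
    (∀ i : ℕ, i ≤ Λ → |φ (zt (i : ℤ) • x) - φ (zt (i : ℤ) • y)| ≤ ρ) → ‖f x - f y‖ ≤ K * ρ

theorem LB.const (φ : C(X, ℝ)) (Λ : ℕ) (a : ℂ) : LB φ Λ (fun _ => a) :=
  ⟨‖a‖, norm_nonneg _, fun _ => le_rfl, fun x y ρ hρ _ => by
    rw [sub_self, norm_zero]; positivity⟩

theorem LB.add {φ : C(X, ℝ)} {Λ : ℕ} {f g : X → ℂ} (hf : LB φ Λ f) (hg : LB φ Λ g) :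
    LB φ Λ (fun x => f x + g x) := by
  obtain ⟨K, hK, h1, h2⟩ := hf
  obtain ⟨K', hK', h1', h2'⟩ := hg
  refine ⟨K + K', by positivity, fun x => (norm_add_le _ _).trans (add_le_add (h1 x) (h1' x)),
    fun x y ρ hρ h => ?_⟩
  have : f x + g x - (f y + g y) = (f x - f y) + (g x - g y) := by ring
  rw [this, add_mul]
  exact (norm_add_le _ _).trans (add_le_add (h2 x y ρ hρ h) (h2' x y ρ hρ h))

theorem LB.mul {φ : C(X, ℝ)} {Λ : ℕ} {f g : X → ℂ} (hf : LB φ Λ f) (hg : LB φ Λ g) :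
    LB φ Λ (fun x => f x * g x) := by
  obtain ⟨K, hK, h1, h2⟩ := hf
  obtain ⟨K', hK', h1', h2'⟩ := hg
  refine ⟨K * K' + K * K', by positivity, fun x => ?_, fun x y ρ hρ h => ?_⟩
  · rw [norm_mul]
    have := mul_le_mul (h1 x) (h1' x) (norm_nonneg _) hK
    have h3 : 0 ≤ K * K' := by positivity
    linarith
  · have : f x * g x - f y * g y = (f x - f y) * g x + f y * (g x - g y) := by ring
    rw [this]
    refine (norm_add_le _ _).trans ?_
    rw [norm_mul, norm_mul, add_mul]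
    have hKρ : 0 ≤ K * ρ := by positivity
    have e1 := mul_le_mul (h2 x y ρ hρ h) (h1' x) (norm_nonneg _) hKρ
    have e2 := mul_le_mul (h1 y) (h2' x y ρ hρ h) (norm_nonneg _) hK
    nlinarith

theorem LB.sum {φ : C(X, ℝ)} {Λ : ℕ} {ι : Type} (S : Finset ι) (f : ι → X → ℂ)
    (hf : ∀ i ∈ S, LB φ Λ (f i)) : LB φ Λ (fun x => ∑ i ∈ S, f i x) := by
  classical
  induction S using Finset.induction_on with
  | empty => simpa using LB.const φ Λ 0
  | insert a S ha ih =>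
    simp only [Finset.sum_insert ha]
    exact (hf a (Finset.mem_insert_self _ _)).add
      (ih fun i hi => hf i (Finset.mem_insert_of_mem hi))

theorem LB.prod {φ : C(X, ℝ)} {Λ : ℕ} {ι : Type} (S : Finset ι) (f : ι → X → ℂ)
    (hf : ∀ i ∈ S, LB φ Λ (f i)) : LB φ Λ (fun x => ∏ i ∈ S, f i x) := by
  classical
  induction S using Finset.induction_on with
  | empty => simpa using LB.const φ Λ 1
  | insert a S ha ih =>
    simp only [Finset.prod_insert ha]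
    exact (hf a (Finset.mem_insert_self _ _)).mul
      (ih fun i hi => hf i (Finset.mem_insert_of_mem hi))

theorem LB.phi {φ : C(X, ℝ)} {Λ : ℕ} (hφ : ∀ x, 0 ≤ φ x ∧ φ x ≤ 1) (i : ℕ) (hi : i ≤ Λ) :
    LB φ Λ (fun x => (φ (zt (i : ℤ) • x) : ℂ)) := by
  refine ⟨1, zero_le_one, fun x => ?_, fun x y ρ _ h => ?_⟩
  · rw [Complex.norm_real, Real.norm_eq_abs, abs_of_nonneg (hφ _).1]
    exact (hφ _).2
  · rw [← Complex.ofReal_sub, Complex.norm_real, Real.norm_eq_abs, one_mul]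
    exact h i hi

theorem LB.psi {φ : C(X, ℝ)} {Λ : ℕ} (hφ : ∀ x, 0 ≤ φ x ∧ φ x ≤ 1) (L s : ℕ) (hi : s + L ≤ Λ) :
    LB φ Λ (fun x => (psi φ L (zt (s : ℤ) • x) : ℂ)) := by
  have e : ∀ (i : ℕ) (x : X), zt (i : ℤ) • zt (s : ℤ) • x = zt (((i + s : ℕ) : ℤ)) • x := by
    intro i x
    rw [← zt_add]; push_cast; rfl
  simp only [Pool.Agent.H252.MD.psi, e]
  push_cast
  refine ((LB.phi hφ s (by omega)).mul (LB.prod _ _ fun i h => ?_)).mul ?_
  · rw [Finset.mem_Ico] at h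
    have h1 := (LB.const φ Λ 1).add ((LB.const φ Λ (-1)).mul
      (LB.phi (φ := φ) hφ (i + s) (show i + s ≤ Λ by omega)))
    refine Eq.mp (congrArg (LB φ Λ) (funext fun x => ?_)) h1
    push_cast
    ring
  · have h1 := LB.phi (φ := φ) hφ (L + s) (show L + s ≤ Λ by omega)
    refine Eq.mp (congrArg (LB φ Λ) (funext fun x => ?_)) h1
    push_cast
    rfl

theorem LB.psi0 {φ : C(X, ℝ)} {Λ : ℕ} (hφ : ∀ x, 0 ≤ φ x ∧ φ x ≤ 1) :
    LB φ Λ (fun x => (Pool.Agent.H252.MD.psi φ Λ x : ℂ)) := by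
  have h := LB.psi (φ := φ) (Λ := Λ) hφ Λ 0 (by omega)
  refine Eq.mp (congrArg (LB φ Λ) (funext fun x => ?_)) h
  have hz : zt ((0 : ℕ) : ℤ) = 1 := by simp [zt]
  rw [hz, one_smul]

theorem LB.zW {φ : C(X, ℝ)} (hφ : ∀ x, 0 ≤ φ x ∧ φ x ≤ 1) (m : ℕ)
    (c : (L : ℕ) → Matrix (Fin n × Fin L) (Fin n × Fin L) ℂ) (p q : Fin n × Fin (m + 1)) :
    LB φ (m + 1) (fun x => zW φ c x m p q) := by
  unfold MDIND.zW
  refine LB.sum _ _ fun L hL => LB.sum _ _ fun s hs => ?_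
  rw [Finset.mem_Icc] at hL
  rw [Finset.mem_range] at hs
  unfold tm
  by_cases h : s ≤ (p.2 : ℕ) ∧ s ≤ (q.2 : ℕ)
  · simp only [if_pos h]
    exact (LB.psi hφ L s (by omega)).mul (LB.const φ _ _)
  · simp only [if_neg h]
    exact LB.const φ _ 0

theorem LB.unif {φ : C(X, ℝ)} {Λ : ℕ} {ι : Type} [Fintype ι] (f : ι → X → ℂ)
    (hf : ∀ i, LB φ Λ (f i)) : ∃ K : ℝ, 0 ≤ K ∧ (∀ i x, ‖f i x‖ ≤ K) ∧ ∀ i x y ρ, 0 ≤ ρ →
    (∀ i : ℕ, i ≤ Λ → |φ (zt (i : ℤ) • x) - φ (zt (i : ℤ) • y)| ≤ ρ) →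
      ‖f i x - f i y‖ ≤ K * ρ := by
  choose K hK h1 h2 using hf
  have hle : ∀ i, K i ≤ ∑ i, K i := fun i =>
    Finset.single_le_sum (fun j _ => hK j) (Finset.mem_univ i)
  refine ⟨∑ i, K i, Finset.sum_nonneg fun i _ => hK i, fun i x => (h1 i x).trans (hle i),
    fun i x y ρ hρ h => (h2 i x y ρ hρ h).trans (mul_le_mul_of_nonneg_right (hle i) hρ)⟩

/-! ### The step -/

theorem step (hGEN : S_GEN) (φ : C(X, ℝ)) (m : ℕ)
    (A B : (Λ : ℕ) → X → Matrix (Fin n × Fin Λ) (Fin n × Fin Λ) ℂ)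
    (hφ : ∀ x, 0 ≤ φ x ∧ φ x ≤ 1) (hG : GenData φ A B (m + 1))
    (c : (L : ℕ) → Matrix (Fin n × Fin L) (Fin n × Fin L) ℂ) :
    ∃ c0 : Matrix (Fin n × Fin (m + 1)) (Fin n × Fin (m + 1)) ℂ, ∀ x, φ x = 1 →
      φ (zt ((m + 1 : ℕ) : ℤ) • x) = 1 → 0 < psi φ (m + 1) x →
      ∀ ξ : Fin n × Fin (m + 1) → ℂ,
        B (m + 1) x *ᵥ (((psi φ (m + 1) x : ℂ) • c0 + zW φ c x m) *ᵥ (A (m + 1) x *ᵥ ξ)) = 0 →
        A (m + 1) x *ᵥ ξ = 0 := by
  classical
  obtain ⟨D, Δ, C, hD, hC, hbd, hcov, hQ⟩ := hG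
  obtain ⟨K1, hK1, -, hw⟩ := LB.psi0 (φ := φ) (Λ := m + 1) hφ
  obtain ⟨K2, hK2, hzb, hz⟩ := LB.unif (φ := φ) (Λ := m + 1)
    (fun (pq : (Fin n × Fin (m + 1)) × (Fin n × Fin (m + 1))) x => zW φ c x m pq.1 pq.2)
    (fun pq => LB.zW hφ m c pq.1 pq.2)
  set K : ℝ := 1 + K1 + K2 with hK
  have hKpos : 0 < K := by positivity
  have hK1le : 1 ≤ K := by rw [hK]; linarith
  set C' : ℝ := 1 + K2 + C + C * (2 * K) ^ D with hC'
  have hCK : 0 < C * (2 * K) ^ D := by positivity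
  have hC'pos : 0 < C' := by positivity
  have hCC' : C ≤ C' := by rw [hC']; linarith
  have gen := hGEN (Fin n × Fin (m + 1))
    {x : X // φ x = 1 ∧ φ (zt ((m + 1 : ℕ) : ℤ) • x) = 1 ∧ 0 < psi φ (m + 1) x}
    (fun i => A (m + 1) i.1) (fun i => B (m + 1) i.1) (fun i => zW φ c i.1 m)
    (fun i => psi φ (m + 1) i.1) D Δ C' hD hC'pos ?_ ?_ ?_ ?_
  · obtain ⟨c0, hc0⟩ := gen
    exact ⟨c0, fun x h1 h2 h3 ξ h => hc0 ⟨x, h1, h2, h3⟩ ξ h⟩
  · intro i
    refine ⟨i.2.2.2, (psi_le_one φ hφ _ _).trans ?_⟩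
    rw [hC']; linarith
  · intro i k l
    refine ⟨(hbd i.1 i.2.1 i.2.2.1 k l).1.trans hCC', (hbd i.1 i.2.1 i.2.2.1 k l).2.trans hCC',
      (hzb (k, l) i.1).trans ?_⟩
    rw [hC']; linarith
  · intro ρ hρ hρ1
    have hρ' : 0 < ρ / (2 * K) := by positivity
    have hρ'1 : ρ / (2 * K) ≤ 1 := by
      rw [div_le_one (by positivity)]; linarith
    obtain ⟨F, -, hFc, hF⟩ := hcov (ρ / (2 * K)) hρ' hρ'1
    set I := {x : X // φ x = 1 ∧ φ (zt ((m + 1 : ℕ) : ℤ) • x) = 1 ∧ 0 < psi φ (m + 1) x} with hI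
    let near : X → X → Prop := fun x y =>
      (∀ i : ℕ, i ≤ m + 1 → |φ (zt (i : ℤ) • x) - φ (zt (i : ℤ) • y)| ≤ ρ / (2 * K)) ∧
        ∀ k l, ‖A (m + 1) x k l - A (m + 1) y k l‖ ≤ ρ / (2 * K) ∧
          ‖B (m + 1) x k l - B (m + 1) y k l‖ ≤ ρ / (2 * K)
    by_cases hne : Nonempty I
    · let pick : X → I := fun y => if h : ∃ i : I, near i.1 y then h.choose else Classical.choice hne
      refine ⟨F.image pick, ?_, ?_⟩
      · have h1 : ((F.image pick).card : ℝ) ≤ F.card := by exact_mod_cast Finset.card_image_le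
        have h2 : (1 / (ρ / (2 * K))) ^ D = (2 * K) ^ D * (1 / ρ) ^ D := by
          rw [← mul_pow]; congr 1; field_simp
        rw [h2] at hFc
        have h3 : 0 ≤ (1 / ρ) ^ D := by positivity
        have h4 : C * (2 * K) ^ D ≤ C' := by rw [hC']; linarith
        calc ((F.image pick).card : ℝ) ≤ F.card := h1
          _ ≤ C * ((2 * K) ^ D * (1 / ρ) ^ D) := hFc
          _ = C * (2 * K) ^ D * (1 / ρ) ^ D := by ring
          _ ≤ C' * (1 / ρ) ^ D := mul_le_mul_of_nonneg_right h4 h3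
      · intro i
        obtain ⟨y, hy, hy1, hy2⟩ := hF i.1 i.2.1 i.2.2.1
        have hex : ∃ i : I, near i.1 y := ⟨i, hy1, hy2⟩
        have hp : near (pick y).1 y := by
          simp only [pick, dif_pos hex]
          exact hex.choose_spec
        refine ⟨pick y, Finset.mem_image_of_mem _ hy, ?_⟩
        have hρK : 2 * (ρ / (2 * K)) ≤ ρ := by
          have : 2 * (ρ / (2 * K)) = ρ / K := by field_simp
          rw [this]
          exact div_le_self hρ.le hK1le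
        have hnn : 0 ≤ ρ / K := by positivity
        have hd : ∀ i' : ℕ, i' ≤ m + 1 →
            |φ (zt (i' : ℤ) • i.1) - φ (zt (i' : ℤ) • (pick y).1)| ≤ ρ / K := by
          intro i' hi'
          have e1 := hy1 i' hi'
          have e2 := hp.1 i' hi'
          have e3 : ρ / K = ρ / (2 * K) + ρ / (2 * K) := by field_simp; ring
          rw [e3]
          rw [abs_sub_comm] at e2
          exact (abs_sub_le _ (φ (zt (i' : ℤ) • y)) _).trans (add_le_add e1 e2)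
        have hKρ : ∀ K' : ℝ, 0 ≤ K' → K' ≤ K → K' * (ρ / K) ≤ ρ := by
          intro K' h0 h1
          rw [← mul_div_assoc, div_le_iff₀ hKpos, mul_comm ρ K]
          exact mul_le_mul_of_nonneg_right h1 hρ.le
        refine ⟨?_, fun k l => ⟨?_, ?_, ?_⟩⟩
        · have h1 := hw i.1 (pick y).1 (ρ / K) hnn hd
          rw [← Complex.ofReal_sub, Complex.norm_real, Real.norm_eq_abs] at h1
          exact h1.trans (hKρ K1 hK1 (by rw [hK]; linarith))
        · have e1 := (hy2 k l).1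
          have e2 := (hp.2 k l).1
          rw [norm_sub_rev] at e2
          have e3 : A (m + 1) i.1 k l - A (m + 1) (pick y).1 k l =
            (A (m + 1) i.1 k l - A (m + 1) y k l) + (A (m + 1) y k l - A (m + 1) (pick y).1 k l) := by
            ring
          rw [e3]
          refine (norm_add_le _ _).trans ?_
          linarith
        · have e1 := (hy2 k l).2
          have e2 := (hp.2 k l).2
          rw [norm_sub_rev] at e2
          have e3 : B (m + 1) i.1 k l - B (m + 1) (pick y).1 k l =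
            (B (m + 1) i.1 k l - B (m + 1) y k l) + (B (m + 1) y k l - B (m + 1) (pick y).1 k l) := by
            ring
          rw [e3]
          refine (norm_add_le _ _).trans ?_
          linarith
        · exact (hz (k, l) i.1 (pick y).1 (ρ / K) hnn hd).trans (hKρ K2 hK2 (by rw [hK]; linarith))
    · refine ⟨∅, ?_, fun i => absurd ⟨i⟩ hne⟩
      simp only [Finset.card_empty, Nat.cast_zero]
      positivity
  · intro i
    obtain ⟨Q, h1, h2, h3⟩ := hQ i.1 i.2.1 i.2.2.1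
    exact ⟨Q, fun k l => (h1 k l).trans hCC', h2, h3⟩

theorem exists_cut (φ : C(X, ℝ)) (m : ℕ) (x : X) (h0 : φ x = 1)
    (h1 : φ (zt ((m + 1 : ℕ) : ℤ) • x) = 1) (h : psi φ (m + 1) x = 0) :
    ∃ i j : ℕ, 0 < i ∧ 0 < j ∧ i + j = m + 1 ∧ φ (zt (i : ℤ) • x) = 1 := by
  unfold psi at h
  rw [h0, h1, one_mul, mul_one, Finset.prod_eq_zero_iff] at h
  obtain ⟨i, hi, h2⟩ := h
  rw [Finset.mem_Ico] at hi
  exact ⟨i, m + 1 - i, by omega, by omega, by omega, by linarith⟩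

end

end Pool.Agent.H263.MDIND

namespace Pool.Agent.H263

open Pool.Agent.H252.MD Matrix Pool.Agent.H263.MDIND

/-- **IND**: the inductive choice of the constant matrices. -/
theorem s_IND : Pool.Agent.H252.MD.S_IND := by
  classical
  intro hGEN X _ _ n φ Lmax A B hφ hA hB hG
  suffices H : ∀ m : ℕ, ∃ c : (L : ℕ) → Matrix (Fin n × Fin L) (Fin n × Fin L) ℂ,
      ∀ Λ : ℕ, 1 ≤ Λ → Λ ≤ m → Λ ≤ Lmax → ∀ x, φ x = 1 → φ (zt (Λ : ℤ) • x) = 1 →
        ∀ ξ : Fin n × Fin Λ → ℂ,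
          B Λ x *ᵥ (vW φ c x Λ *ᵥ (A Λ x *ᵥ ξ)) = 0 → A Λ x *ᵥ ξ = 0 by
    obtain ⟨c, hc⟩ := H Lmax
    exact ⟨c, fun Λ h1 h2 => hc Λ h1 h2 h2⟩
  intro m
  induction m with
  | zero => exact ⟨fun _ => 0, fun Λ h1 h2 => by omega⟩
  | succ m ih =>
    obtain ⟨c, hc⟩ := ih
    by_cases hm : m + 1 ≤ Lmax
    · obtain ⟨c0, hc0⟩ := step hGEN φ m A B hφ (hG (m + 1) (by omega) hm) c
      have hold : ∀ L, L ≤ m → Function.update c (m + 1) c0 L = c L := fun L hL =>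
        Function.update_of_ne (by omega) _ _
      have hz : ∀ x, zW φ (Function.update c (m + 1) c0) x m = zW φ c x m := by
        intro x
        funext p q
        unfold zW
        refine Finset.sum_congr rfl fun L hL => Finset.sum_congr rfl fun s _ => ?_
        rw [Finset.mem_Icc] at hL
        exact tm_congr φ x _ _ _ _ _ _ (hold L hL.2)
      have hsmall : ∀ Λ : ℕ, 1 ≤ Λ → Λ ≤ m → Λ ≤ Lmax → ∀ x, φ x = 1 →
          φ (zt (Λ : ℤ) • x) = 1 → ∀ ξ : Fin n × Fin Λ → ℂ,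
          B Λ x *ᵥ (vW φ (Function.update c (m + 1) c0) x Λ *ᵥ (A Λ x *ᵥ ξ)) = 0 →
            A Λ x *ᵥ ξ = 0 := by
        intro Λ h1 h2 h3 x h4 h5 ξ h6
        rw [vW_congr φ x Λ (fun L _ hL => hold L (hL.trans h2))] at h6
        exact hc Λ h1 h2 h3 x h4 h5 ξ h6
      refine ⟨Function.update c (m + 1) c0, fun Λ h1 h2 h3 x h4 h5 ξ h6 => ?_⟩
      rcases Nat.lt_or_ge m Λ with hlt | hge
      · obtain rfl : Λ = m + 1 := by omega
        rcases (psi_nonneg φ hφ (m + 1) x).eq_or_lt' with hp | hp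
        · obtain ⟨i, j, hi, hj, hij, hcut⟩ := exists_cut φ m x h4 h5 hp
          have Hi := hsmall i (by omega) (by omega) (by omega) x h4 hcut
          have hcut2 : φ (zt (j : ℤ) • zt (i : ℤ) • x) = 1 := by
            rw [← zt_add, show ((j : ℤ) + (i : ℤ)) = ((m + 1 : ℕ) : ℤ) by omega]
            exact h5
          have Hj := hsmall j (by omega) (by omega) (by omega) (zt (i : ℤ) • x) hcut hcut2
          clear hz hsmall hold hc0
          generalize hc' : Function.update c (m + 1) c0 = c' at *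
          clear hc'
          clear hG c0
          revert ξ h5 hp
          rw [← hij]
          intro h5 ξ hp h6
          exact split_case φ A B hA hB c' i j x hi hj h4 hcut h5 Hi Hj ξ h6
        · rw [vW_top, hz, Function.update_self] at h6
          exact hc0 x h4 h5 hp ξ h6
      · exact hsmall Λ h1 hge h3 x h4 h5 ξ h6
    · exact ⟨c, fun Λ h1 h2 h3 => hc Λ h1 (by omega) h3⟩

end Pool.Agent.H263
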