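import Pool.Agent.H812.SO.Stm

/-!
# `S_ODE` of project SO (helper812), problem MP_83fd13_an

`w(t) = √t J_n(t)` satisfies `w'' = -(1 - (n² - 1/4)/t²) w`: direct computation from `S_DER`.
-/

set_option autoImplicit false

namespace Pool.Agent.H263.SoODE

open Pool.Agent.H812.SO Pool.Agent.N229.SC

theorem proof_ODE (hDER : S_DER) : S_ODE := by
  intro n x hx
  have hs0 : 0 < Real.sqrt x := Real.sqrt_pos.mpr hx
  have hsne : Real.sqrt x ≠ 0 := hs0.ne'
  have hxne : x ≠ 0 := hx.ne'
  have hsq : Real.sqrt x ^ 2 = x := Real.sq_sqrt hx.le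
  obtain ⟨h1, h2⟩ := hDER n x hx
  have hsd : HasDerivAt (fun t : ℝ => Real.sqrt t) (1 / (2 * Real.sqrt x)) x :=
    Real.hasDerivAt_sqrt hxne
  constructor
  · have h := hsd.mul h1
    have e : 1 / (2 * Real.sqrt x) * Fb x n + Real.sqrt x * (n / x * Fb x n - Fb x (n + 1))
        = ww n x := by
      unfold ww
      ring
    rw [← e]
    exact h
  · have h2s : HasDerivAt (fun t : ℝ => 2 * Real.sqrt t) (2 * (1 / (2 * Real.sqrt x))) x :=
      hsd.const_mul 2
    have hA := h1.div h2s (mul_ne_zero two_ne_zero hsne)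
    have hnx : HasDerivAt (fun t : ℝ => (n : ℝ) / t) (-(n : ℝ) / x ^ 2) x := by
      have h := (hasDerivAt_const x (n : ℝ)).div (hasDerivAt_id x) hxne
      have e : (0 * id x - (n : ℝ) * 1) / id x ^ 2 = -(n : ℝ) / x ^ 2 := by
        simp
      rw [← e]
      exact h
    have hB := (hsd.mul ((hnx.mul h1).sub h2))
    have h := hA.add hB
    have hfun : ww n = fun t : ℝ => Fb t n / (2 * Real.sqrt t)
        + Real.sqrt t * ((n : ℝ) / t * Fb t n - Fb t (n + 1)) := by
      funext t
      rfl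
    rw [hfun]
    have e : (-(1 - ((n : ℝ) ^ 2 - 1 / 4) / x ^ 2) * (Real.sqrt x * Fb x n))
        = ((n / x * Fb x n - Fb x (n + 1)) * (2 * Real.sqrt x)
            - Fb x n * (2 * (1 / (2 * Real.sqrt x)))) / (2 * Real.sqrt x) ^ 2
          + (1 / (2 * Real.sqrt x) * ((n : ℝ) / x * Fb x n - Fb x (n + 1))
            + Real.sqrt x * ((-(n : ℝ) / x ^ 2 * Fb x n + (n : ℝ) / x * (n / x * Fb x n - Fb x (n + 1)))
              - (Fb x n - (n + 1) / x * Fb x (n + 1)))) := by
      generalize Fb x n = F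
      generalize Fb x (n + 1) = G
      generalize hS : Real.sqrt x = S at *
      subst hsq
      have hS0 : S ≠ 0 := hsne
      field_simp
      ring
    rw [e]
    exact h

end Pool.Agent.H263.SoODE
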